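import Pool.Agent.NPG.Stmts

set_option autoImplicit false

namespace Pool.Agent.NPG.H19

open Pool.Agent.LSG Pool.Agent.NPG

theorem prd : PrdStmt := by
  intro E _ _ _ h
  choose i p hip using h
  refine ⟨ContinuousLinearMap.pi fun n => (i n).comp (ContinuousLinearMap.pi fun k =>
    (ContinuousLinearMap.proj n : (∀ n, E n) →L[ℝ] E n).comp
      (ContinuousLinearMap.proj k : (ℕ → ∀ n, E n) →L[ℝ] (∀ n, E n))),
    ContinuousLinearMap.pi fun k => ContinuousLinearMap.pi fun n =>
      (ContinuousLinearMap.proj k : (ℕ → E n) →L[ℝ] E n).comp ((p n).comp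
        (ContinuousLinearMap.proj n : (∀ n, E n) →L[ℝ] E n)), ?_⟩
  intro F
  funext k n
  simp only [ContinuousLinearMap.pi_apply, ContinuousLinearMap.comp_apply,
    ContinuousLinearMap.proj_apply]
  rw [hip]
  simp

end Pool.Agent.NPG.H19
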